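import Pool.Agent.helper88.GR.Spec

set_option autoImplicit false

open Complex Metric Set Filter Topology MeasureTheory
open MPS (om)
open PPS (pre TT fd)
open XPS (Df er dens tau)

noncomputable section

namespace GR

theorem LOC_sq (s : ℂ) (ε : ℝ) (h0 : 0 ≤ ε) (hε : ε ≤ 1 / 2) (hs : ‖s - 1‖ ≤ ε) :
    ‖s ^ 2 - 1‖ ≤ 5 / 2 * ε ∧ ‖s ^ 2‖ ≤ 9 / 4 := by
  have h1 : s ^ 2 - 1 = 2 * (s - 1) + (s - 1) ^ 2 := by ring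
  have h2 : ‖s ^ 2 - 1‖ ≤ 5 / 2 * ε := by
    rw [h1]
    calc ‖2 * (s - 1) + (s - 1) ^ 2‖ ≤ ‖2 * (s - 1)‖ + ‖(s - 1) ^ 2‖ := norm_add_le _ _
      _ = 2 * ‖s - 1‖ + ‖s - 1‖ ^ 2 := by rw [norm_mul, norm_pow]; norm_num
      _ ≤ 5 / 2 * ε := by nlinarith [norm_nonneg (s - 1)]
  refine ⟨h2, ?_⟩
  calc ‖s ^ 2‖ = ‖(s ^ 2 - 1) + 1‖ := by ring_nf
    _ ≤ ‖s ^ 2 - 1‖ + ‖(1 : ℂ)‖ := norm_add_le _ _
    _ ≤ 9 / 4 := by rw [norm_one]; linarith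

theorem LOC_cu (p s : ℂ) (ε : ℝ) (h0 : 0 ≤ ε) (hε : ε ≤ 1 / 2) (hp : ‖p - 1‖ ≤ ε)
    (hs : ‖s - 1‖ ≤ ε) : ‖p * s ^ 2 - 1‖ ≤ 5 * ε := by
  obtain ⟨h1, h2⟩ := LOC_sq s ε h0 hε hs
  have h3 : p * s ^ 2 - 1 = (p - 1) * s ^ 2 + (s ^ 2 - 1) := by ring
  rw [h3]
  calc ‖(p - 1) * s ^ 2 + (s ^ 2 - 1)‖ ≤ ‖(p - 1) * s ^ 2‖ + ‖s ^ 2 - 1‖ := norm_add_le _ _
    _ = ‖p - 1‖ * ‖s ^ 2‖ + ‖s ^ 2 - 1‖ := by rw [norm_mul]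
    _ ≤ ε * (9 / 4) + 5 / 2 * ε := by gcongr
    _ ≤ 5 * ε := by linarith

theorem LOC_alg (γ u a b xs p s e : ℂ) (ε : ℝ) (h0 : 0 ≤ ε) (hε : ε ≤ 1 / 2) (hu : u ≠ 0)
    (hγ : γ ≠ 0) (hp : ‖p - 1‖ ≤ ε) (hs : ‖s - 1‖ ≤ ε) (hx : ‖xs - 1‖ ≤ ε) :
    ‖xs / (γ * u * p) * (γ * s) ^ 2 - γ / u‖ ≤ 12 * ε * ‖γ / u‖ ∧
    ‖a * (γ * s) ^ 2 - a * γ ^ 2‖ ≤ 12 * ε * ‖a * γ ^ 2‖ ∧
    ‖b * (γ * u * p) * (γ * s) ^ 2 - b * γ ^ 3 * u‖ ≤ 12 * ε * ‖b * γ ^ 3 * u‖ ∧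
    ‖e * (γ * s) ^ 2‖ ≤ 9 / 4 * ‖e‖ * ‖γ‖ ^ 2 := by
  obtain ⟨h1, h2⟩ := LOC_sq s ε h0 hε hs
  have hpn : 1 / 2 ≤ ‖p‖ := by
    have h3 : ‖(1 : ℂ)‖ ≤ ‖p‖ + ‖p - 1‖ := by
      calc ‖(1 : ℂ)‖ = ‖p - (p - 1)‖ := by ring_nf
        _ ≤ ‖p‖ + ‖p - 1‖ := norm_sub_le _ _
    rw [norm_one] at h3
    linarith
  have hp0 : p ≠ 0 := by
    intro h
    rw [h, norm_zero] at hpn
    linarith
  refine ⟨?_, ?_, ?_, ?_⟩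
  · have e1 : xs / (γ * u * p) * (γ * s) ^ 2 - γ / u = γ / u * ((xs * s ^ 2 - p) / p) := by
      field_simp
    rw [e1, norm_mul, norm_div (xs * s ^ 2 - p) p]
    have e2 : ‖xs * s ^ 2 - p‖ ≤ 6 * ε := by
      have e3 : xs * s ^ 2 - p = (xs * s ^ 2 - 1) - (p - 1) := by ring
      rw [e3]
      calc ‖(xs * s ^ 2 - 1) - (p - 1)‖ ≤ ‖xs * s ^ 2 - 1‖ + ‖p - 1‖ := norm_sub_le _ _
        _ ≤ 5 * ε + ε := add_le_add (LOC_cu xs s ε h0 hε hx hs) hp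
        _ = 6 * ε := by ring
    have e4 : ‖xs * s ^ 2 - p‖ / ‖p‖ ≤ 12 * ε := by
      rw [div_le_iff₀ (by linarith)]
      nlinarith
    calc ‖γ / u‖ * (‖xs * s ^ 2 - p‖ / ‖p‖) ≤ ‖γ / u‖ * (12 * ε) := by gcongr
      _ = 12 * ε * ‖γ / u‖ := by ring
  · have e1 : a * (γ * s) ^ 2 - a * γ ^ 2 = a * γ ^ 2 * (s ^ 2 - 1) := by ring
    rw [e1, norm_mul]
    calc ‖a * γ ^ 2‖ * ‖s ^ 2 - 1‖ ≤ ‖a * γ ^ 2‖ * (12 * ε) := by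
          gcongr
          linarith
      _ = 12 * ε * ‖a * γ ^ 2‖ := by ring
  · have e1 : b * (γ * u * p) * (γ * s) ^ 2 - b * γ ^ 3 * u = b * γ ^ 3 * u * (p * s ^ 2 - 1) := by
      ring
    rw [e1, norm_mul]
    have e2 := LOC_cu p s ε h0 hε hp hs
    calc ‖b * γ ^ 3 * u‖ * ‖p * s ^ 2 - 1‖ ≤ ‖b * γ ^ 3 * u‖ * (12 * ε) := by
          gcongr
          linarith
      _ = 12 * ε * ‖b * γ ^ 3 * u‖ := by ring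
  · rw [mul_pow, norm_mul, norm_mul, norm_pow]
    calc ‖e‖ * (‖γ‖ ^ 2 * ‖s ^ 2‖) ≤ ‖e‖ * (‖γ‖ ^ 2 * (9 / 4)) := by gcongr
      _ = 9 / 4 * ‖e‖ * ‖γ‖ ^ 2 := by ring

/-- the final bookkeeping: `N` dominates `N₁` and `N₂`. -/
theorem LOC_fin (H M M₁ M₂ T T₁ T₂ E : ℂ) (ε Λ C₂ η : ℝ) (h0 : 0 ≤ ε) (hε : ε ≤ 1 / 2)
    (hΛ : 0 < Λ) (hH : H = T + T₁ + T₂ + E) (hT : ‖T - M‖ ≤ 12 * ε * ‖M‖)
    (hT₁ : ‖T₁ - M₁‖ ≤ 12 * ε * ‖M₁‖) (hT₂ : ‖T₂ - M₂‖ ≤ 12 * ε * ‖M₂‖)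
    (hE : ‖E‖ ≤ 18 * C₂ / Λ * ‖M‖) (h1 : ‖M₁‖ ≤ 4 / Λ * ‖M‖) (h2 : ‖M₂‖ ≤ 4 / Λ * ‖M‖)
    (hη : 12 * ε + 56 / Λ + 18 * C₂ / Λ ≤ η) : ‖H - M‖ ≤ η * ‖M‖ := by
  have e1 : H - M = (T - M) + ((T₁ - M₁) + M₁) + ((T₂ - M₂) + M₂) + E := by rw [hH]; ring
  have e2 : ‖H - M‖ ≤ ‖T - M‖ + (‖T₁ - M₁‖ + ‖M₁‖) + (‖T₂ - M₂‖ + ‖M₂‖) + ‖E‖ := by
    rw [e1]
    refine le_trans (norm_add_le _ _) ?_
    gcongr
    refine le_trans (norm_add_le _ _) ?_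
    gcongr
    · refine le_trans (norm_add_le _ _) ?_
      gcongr
      exact norm_add_le _ _
    · exact norm_add_le _ _
  have e3 : 12 * ε * ‖M₁‖ ≤ 6 * ‖M₁‖ := by nlinarith [norm_nonneg M₁]
  have e4 : 12 * ε * ‖M₂‖ ≤ 6 * ‖M₂‖ := by nlinarith [norm_nonneg M₂]
  have e5 : ‖H - M‖ ≤ (12 * ε + 56 / Λ + 18 * C₂ / Λ) * ‖M‖ := by
    have e6 : (12 * ε + 56 / Λ + 18 * C₂ / Λ) * ‖M‖ =
        12 * ε * ‖M‖ + 7 * (4 / Λ * ‖M‖) + 7 * (4 / Λ * ‖M‖) + 18 * C₂ / Λ * ‖M‖ := by ring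
    rw [e6]
    linarith
  exact e5.trans (mul_le_mul_of_nonneg_right hη (norm_nonneg M))

theorem LOC (hSEL : SEL_stmt) : LOC_stmt := by
  intro Γ C₂ C₃ ρ₁ η hΓ hC₂ hC₃ hρ₁ hη
  -- the constant Λ
  set Λ : ℝ := 4 + 1 / ρ₁ + 4 * (4 * C₃ + 1) + (24 * (4 * C₃ + 1) + 56 + 18 * C₂) / η with hΛdef
  have hq1 : 0 ≤ 1 / ρ₁ := by positivity
  have hq2 : 0 ≤ (24 * (4 * C₃ + 1) + 56 + 18 * C₂) / η := by positivity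
  have hΛ4 : 4 ≤ Λ := by rw [hΛdef]; nlinarith
  have hΛρ : 1 / ρ₁ ≤ Λ := by rw [hΛdef]; nlinarith
  have hΛC : 4 * (4 * C₃ + 1) ≤ Λ := by rw [hΛdef]; nlinarith
  have hΛη : (24 * (4 * C₃ + 1) + 56 + 18 * C₂) / η ≤ Λ := by rw [hΛdef]; nlinarith
  clear_value Λ
  have hΛ0 : 0 < Λ := by linarith
  have hΓ0 : 0 < Γ := by linarith
  have hΛ8 : 1 ≤ Λ ^ 8 := one_le_pow₀ (by linarith)
  refine ⟨Γ * Λ ^ 8, 1 / (Γ * Λ ^ 6), by nlinarith, by positivity, ?_⟩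
  intro g bh u₀ γ xs a b hγ hu₀ hxs hg hbh
  obtain ⟨k, hk, hsel⟩ := hSEL Λ ‖a‖ ‖b‖ (by linarith) (norm_nonneg a) (norm_nonneg b)
  rw [Finset.mem_Icc] at hk
  -- y and ρ
  set P : ℝ := Λ ^ k with hP
  have hP1 : Λ ≤ P := by
    rw [hP]
    calc Λ = Λ ^ 1 := (pow_one Λ).symm
      _ ≤ Λ ^ k := pow_le_pow_right₀ (by linarith) hk.1
  have hP6 : P ≤ Λ ^ 6 := by
    rw [hP]
    exact pow_le_pow_right₀ (by linarith) hk.2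
  clear_value P
  have hP0 : 0 < P := by linarith
  have hγ0 : γ ≠ 0 := by
    intro h
    rw [h, norm_zero] at hγ
    linarith
  set ρ : ℝ := 1 / (Γ * P) with hρdef
  have hρ0 : 0 < ρ := by rw [hρdef]; positivity
  have hρP : ρ * (Γ * P) = 1 := by rw [hρdef]; field_simp
  have hρΛ : ρ * Λ ≤ 1 := by
    calc ρ * Λ ≤ ρ * (Γ * P) := by
          gcongr
          nlinarith
      _ = 1 := hρP
  have hρle : ρ ≤ ρ₁ := by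
    have h1 : 1 ≤ ρ₁ * Λ := by
      rw [div_le_iff₀ hρ₁] at hΛρ
      linarith
    by_contra h
    push Not at h
    nlinarith
  have hρc : 1 / (Γ * Λ ^ 6) ≤ ρ := by
    rw [hρdef]
    apply one_div_le_one_div_of_le (by positivity)
    gcongr
  -- the quantity ε
  set ε : ℝ := 2 * (4 * C₃ + 1) / Λ with hεdef
  have hε0 : 0 ≤ ε := by rw [hεdef]; positivity
  have hε : ε ≤ 1 / 2 := by
    rw [hεdef, div_le_iff₀ hΛ0]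
    linarith
  have hεΛ : ε * Λ = 2 * (4 * C₃ + 1) := by rw [hεdef]; field_simp
  have hηε : 12 * ε + 56 / Λ + 18 * C₂ / Λ ≤ η := by
    have h1 : 12 * ε + 56 / Λ + 18 * C₂ / Λ = (24 * (4 * C₃ + 1) + 56 + 18 * C₂) / Λ := by
      rw [hεdef]; ring
    rw [h1, div_le_iff₀ hΛ0]
    rw [div_le_iff₀ hη] at hΛη
    linarith
  clear_value ρ ε
  have hu₀ρ : ‖u₀‖ * Λ ^ 2 ≤ ρ := by
    have h1 : ‖u₀‖ * (Γ * Λ ^ 8) ≤ 1 := by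
      rwa [le_div_iff₀ (by positivity)] at hu₀
    by_contra h
    push Not at h
    have h2 : ρ * (Γ * Λ ^ 6) < ‖u₀‖ * Λ ^ 2 * (Γ * Λ ^ 6) := by
      apply mul_lt_mul_of_pos_right h
      positivity
    have h3 : ρ * (Γ * P) ≤ ρ * (Γ * Λ ^ 6) := by gcongr
    have h4 : ‖u₀‖ * Λ ^ 2 * (Γ * Λ ^ 6) = ‖u₀‖ * (Γ * Λ ^ 8) := by ring
    linarith
  have hxs' : ‖xs - 1‖ ≤ ε := by
    have h1 : ‖xs - 1‖ * (Γ * Λ ^ 8) ≤ 1 := by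
      rwa [le_div_iff₀ (by positivity)] at hxs
    have h2 : Λ ≤ Γ * Λ ^ 8 := by
      calc Λ = 1 * Λ ^ 1 := by ring
        _ ≤ Γ * Λ ^ 8 := by
          gcongr
          · linarith
          · norm_num
    have h3 : ‖xs - 1‖ * Λ ≤ 1 := by
      calc ‖xs - 1‖ * Λ ≤ ‖xs - 1‖ * (Γ * Λ ^ 8) := by gcongr
        _ ≤ 1 := h1
    by_contra h
    push Not at h
    nlinarith
  -- pointwise facts on the annulus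
  have key : ∀ u : ℂ, ρ / 2 < ‖u‖ → ‖u‖ < ρ → ∃ p s e : ℂ, ‖p - 1‖ ≤ ε ∧ ‖s - 1‖ ≤ ε ∧
      u ≠ 0 ∧ bh (g u) * deriv g u ^ 2 = xs / (γ * u * p) * (γ * s) ^ 2 + a * (γ * s) ^ 2 +
        b * (γ * u * p) * (γ * s) ^ 2 + e * (γ * s) ^ 2 ∧ ‖e‖ * (P * Λ) ≤ 4 * C₂ := by
    intro u hu1 hu2
    have hu0 : u ≠ 0 := by
      intro h
      rw [h, norm_zero] at hu1
      linarith
    have hun : 0 < ‖u‖ := norm_pos_iff.2 hu0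
    have hu14 : ‖u‖ ≤ 1 / 4 := by nlinarith
    obtain ⟨hg1, hg2⟩ := hg u hu14
    have hΛ2 : 1 ≤ Λ ^ 2 := one_le_pow₀ (by linarith)
    have hu₀' : ‖u₀‖ ≤ ρ := by nlinarith [norm_nonneg u₀]
    have hsub : ‖u - u₀‖ ≤ 2 * ρ := by
      calc ‖u - u₀‖ ≤ ‖u‖ + ‖u₀‖ := norm_sub_le _ _
        _ ≤ 2 * ρ := by linarith
    -- p
    have hgu : ‖g u - γ * u‖ ≤ ε * (Γ * ‖u‖) := by
      have h1 : g u - γ * u = (g u - γ * (u - u₀)) - γ * u₀ := by ring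
      have h2 : ‖g u - γ * u‖ ≤ C₃ * (2 * ρ) ^ 2 + Γ * ‖u₀‖ := by
        rw [h1]
        calc ‖(g u - γ * (u - u₀)) - γ * u₀‖ ≤ ‖g u - γ * (u - u₀)‖ + ‖γ * u₀‖ := norm_sub_le _ _
          _ ≤ C₃ * ‖u - u₀‖ ^ 2 + Γ * ‖u₀‖ := by
              rw [norm_mul, hγ]
              gcongr
          _ ≤ C₃ * (2 * ρ) ^ 2 + Γ * ‖u₀‖ := by gcongr
      have h3 : (C₃ * (2 * ρ) ^ 2 + Γ * ‖u₀‖) * Λ ≤ ε * (Γ * ‖u‖) * Λ := by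
        have h4 : ε * (Γ * ‖u‖) * Λ = 2 * (4 * C₃ + 1) * (Γ * ‖u‖) := by
          calc ε * (Γ * ‖u‖) * Λ = ε * Λ * (Γ * ‖u‖) := by ring
            _ = _ := by rw [hεΛ]
        rw [h4]
        have h5 : C₃ * (2 * ρ) ^ 2 * Λ ≤ 4 * C₃ * (Γ * ρ) := by
          calc C₃ * (2 * ρ) ^ 2 * Λ = 4 * C₃ * ρ * (ρ * Λ) := by ring
            _ ≤ 4 * C₃ * ρ * 1 := by gcongr
            _ ≤ 4 * C₃ * ρ * Γ := by gcongr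
            _ = 4 * C₃ * (Γ * ρ) := by ring
        have h6 : Γ * ‖u₀‖ * Λ ≤ Γ * ρ := by
          have h7 : ‖u₀‖ * Λ ≤ ρ := by
            have h8 : ‖u₀‖ * Λ ≤ ‖u₀‖ * Λ ^ 2 := by
              gcongr
              nlinarith
            linarith
          calc Γ * ‖u₀‖ * Λ = Γ * (‖u₀‖ * Λ) := by ring
            _ ≤ Γ * ρ := by gcongr
        have h9 : (4 * C₃ + 1) * (Γ * ρ) ≤ 2 * (4 * C₃ + 1) * (Γ * ‖u‖) := by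
          have h10 : ρ ≤ 2 * ‖u‖ := by linarith
          calc (4 * C₃ + 1) * (Γ * ρ) ≤ (4 * C₃ + 1) * (Γ * (2 * ‖u‖)) := by gcongr
            _ = _ := by ring
        nlinarith
      have h11 := le_of_mul_le_mul_right h3 hΛ0
      linarith
    have hdg : ‖deriv g u - γ‖ ≤ ε * Γ := by
      have h2 : ‖deriv g u - γ‖ ≤ C₃ * (2 * ρ) := by
        calc ‖deriv g u - γ‖ ≤ C₃ * ‖u - u₀‖ := hg2
          _ ≤ C₃ * (2 * ρ) := by gcongr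
      have h3 : C₃ * (2 * ρ) * Λ ≤ ε * Γ * Λ := by
        have h4 : ε * Γ * Λ = 2 * (4 * C₃ + 1) * Γ := by
          calc ε * Γ * Λ = ε * Λ * Γ := by ring
            _ = _ := by rw [hεΛ]
        rw [h4]
        calc C₃ * (2 * ρ) * Λ = 2 * C₃ * (ρ * Λ) := by ring
          _ ≤ 2 * C₃ * 1 := by gcongr
          _ ≤ 2 * (4 * C₃ + 1) * 1 := by nlinarith
          _ ≤ 2 * (4 * C₃ + 1) * Γ := by gcongr
      have h11 := le_of_mul_le_mul_right h3 hΛ0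
      linarith
    have hγu : ‖γ * u‖ = Γ * ‖u‖ := by rw [norm_mul, hγ]
    have hγu0 : γ * u ≠ 0 := mul_ne_zero hγ0 hu0
    have hp : ‖g u / (γ * u) - 1‖ ≤ ε := by
      have h1 : g u / (γ * u) - 1 = (g u - γ * u) / (γ * u) := by field_simp
      rw [h1, norm_div, hγu, div_le_iff₀ (by positivity)]
      exact hgu
    have hs : ‖deriv g u / γ - 1‖ ≤ ε := by
      have h1 : deriv g u / γ - 1 = (deriv g u - γ) / γ := by field_simp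
      rw [h1, norm_div, hγ, div_le_iff₀ hΓ0]
      exact hdg
    have hgeq : γ * u * (g u / (γ * u)) = g u := by field_simp
    have hdeq : γ * (deriv g u / γ) = deriv g u := by field_simp
    -- size of x = g u
    have hxlo : 0 < ‖g u‖ := by
      have h1 : ‖γ * u‖ ≤ ‖g u‖ + ‖g u - γ * u‖ := by
        calc ‖γ * u‖ = ‖g u - (g u - γ * u)‖ := by ring_nf
          _ ≤ ‖g u‖ + ‖g u - γ * u‖ := norm_sub_le _ _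
      rw [hγu] at h1
      have h2 : 0 < Γ * ‖u‖ := by positivity
      nlinarith
    have hxhi : ‖g u‖ * P ≤ 2 := by
      have h1 : ‖g u‖ ≤ ‖g u - γ * u‖ + ‖γ * u‖ := by
        calc ‖g u‖ = ‖(g u - γ * u) + γ * u‖ := by ring_nf
          _ ≤ _ := norm_add_le _ _
      rw [hγu] at h1
      have h2 : 0 < Γ * ‖u‖ := by positivity
      have h3 : Γ * ‖u‖ ≤ Γ * ρ := by gcongr
      have h4 : Γ * ρ * P = 1 := by linarith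
      have h5 : ‖g u‖ ≤ 2 * (Γ * ρ) := by nlinarith
      calc ‖g u‖ * P ≤ 2 * (Γ * ρ) * P := by gcongr
        _ = 2 := by linarith
    have hxhalf : ‖g u‖ ≤ 1 / 2 := by nlinarith
    have hb := hbh (g u) hxlo hxhalf
    refine ⟨g u / (γ * u), deriv g u / γ, bh (g u) - xs / (g u) - a - b * (g u), hp, hs, hu0,
      ?_, ?_⟩
    · rw [hgeq, hdeq]
      ring
    · have h1 : ‖g u‖ ^ 2 * (P * Λ) ≤ 4 := by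
        have h2 : ‖g u‖ ^ 2 * (P * Λ) ≤ ‖g u‖ ^ 2 * (P * P) := by gcongr
        have h3 : ‖g u‖ ^ 2 * (P * P) = (‖g u‖ * P) ^ 2 := by ring
        have h4 : (‖g u‖ * P) ^ 2 ≤ 2 ^ 2 := by gcongr
        linarith
      calc ‖bh (g u) - xs / (g u) - a - b * (g u)‖ * (P * Λ)
          ≤ C₂ * ‖g u‖ ^ 2 * (P * Λ) := by gcongr
        _ = C₂ * (‖g u‖ ^ 2 * (P * Λ)) := by ring
        _ ≤ C₂ * 4 := by gcongr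
        _ = 4 * C₂ := by ring
  -- sizes of the model terms
  have hM : ∀ u : ℂ, ρ / 2 < ‖u‖ → ‖u‖ < ρ → Γ ^ 2 * P ≤ ‖γ / u‖ ∧ ‖γ / u‖ ≤ 2 * (Γ ^ 2 * P) ∧
      ‖a * γ ^ 2‖ = Γ ^ 2 * ‖a‖ ∧ Γ ^ 2 * (‖b‖ / P) ≤ 2 * ‖b * γ ^ 3 * u‖ ∧
      ‖b * γ ^ 3 * u‖ ≤ Γ ^ 2 * (‖b‖ / P) := by
    intro u hu1 hu2
    have hun : 0 < ‖u‖ := by linarith
    have h4 : Γ * ρ * P = 1 := by linarith
    have hb0 : 0 ≤ ‖b‖ := norm_nonneg b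
    refine ⟨?_, ?_, ?_, ?_, ?_⟩
    · rw [norm_div, hγ, le_div_iff₀ hun]
      calc Γ ^ 2 * P * ‖u‖ ≤ Γ ^ 2 * P * ρ := by gcongr
        _ = Γ * (Γ * ρ * P) := by ring
        _ = Γ := by rw [h4, mul_one]
    · rw [norm_div, hγ, div_le_iff₀ hun]
      calc Γ = Γ * (Γ * ρ * P) := by rw [h4, mul_one]
        _ = Γ ^ 2 * P * ρ := by ring
        _ ≤ Γ ^ 2 * P * (2 * ‖u‖) := by
            gcongr
            linarith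
        _ = 2 * (Γ ^ 2 * P) * ‖u‖ := by ring
    · rw [norm_mul, norm_pow, hγ]; ring
    · rw [norm_mul, norm_mul, norm_pow, hγ]
      have h5 : ‖b‖ / P = ‖b‖ * (Γ * ρ) := by
        rw [div_eq_iff hP0.ne']
        calc ‖b‖ = ‖b‖ * (Γ * ρ * P) := by rw [h4, mul_one]
          _ = ‖b‖ * (Γ * ρ) * P := by ring
      rw [h5]
      calc Γ ^ 2 * (‖b‖ * (Γ * ρ)) = ‖b‖ * Γ ^ 3 * ρ := by ring
        _ ≤ ‖b‖ * Γ ^ 3 * (2 * ‖u‖) := by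
            gcongr
            linarith
        _ = 2 * (‖b‖ * Γ ^ 3 * ‖u‖) := by ring
    · rw [norm_mul, norm_mul, norm_pow, hγ]
      have h5 : ‖b‖ / P = ‖b‖ * (Γ * ρ) := by
        rw [div_eq_iff hP0.ne']
        calc ‖b‖ = ‖b‖ * (Γ * ρ * P) := by rw [h4, mul_one]
          _ = ‖b‖ * (Γ * ρ) * P := by ring
      rw [h5]
      calc ‖b‖ * Γ ^ 3 * ‖u‖ ≤ ‖b‖ * Γ ^ 3 * ρ := by gcongr
        _ = Γ ^ 2 * (‖b‖ * (Γ * ρ)) := by ring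
  -- conclusion, with D the dominating size
  have dom : ∀ (D D' N' : ℝ) (N : ℝ), Λ * D' ≤ D → Γ ^ 2 * D ≤ 2 * N → N' ≤ 2 * (Γ ^ 2 * D') →
      N' ≤ 4 / Λ * N := by
    intro D D' N' N h1 h2 h3
    have h4 : 4 / Λ * N = 4 * N / Λ := by ring
    rw [h4, le_div_iff₀ hΛ0]
    have h5 : Γ ^ 2 * (Λ * D') ≤ Γ ^ 2 * D := by gcongr
    nlinarith
  have err : ∀ (e : ℂ) (D N : ℝ) (s : ℂ), ‖e‖ * (P * Λ) ≤ 4 * C₂ → P ≤ D → Γ ^ 2 * D ≤ 2 * N →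
      ‖e * (γ * s) ^ 2‖ ≤ 9 / 4 * ‖e‖ * ‖γ‖ ^ 2 → ‖e * (γ * s) ^ 2‖ ≤ 18 * C₂ / Λ * N := by
    intro e D N s h1 h2 h3 h4
    refine h4.trans ?_
    have h5 : 18 * C₂ / Λ * N = 18 * C₂ * N / Λ := by ring
    rw [h5, le_div_iff₀ hΛ0, hγ]
    have h6 : 1 ≤ P := by linarith
    have h7 : ‖e‖ * Λ ≤ 4 * C₂ := by
      calc ‖e‖ * Λ = ‖e‖ * (1 * Λ) := by ring
        _ ≤ ‖e‖ * (P * Λ) := by gcongr
        _ ≤ 4 * C₂ := h1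
    have h8 : Γ ^ 2 ≤ 2 * N := by
      have : Γ ^ 2 * 1 ≤ Γ ^ 2 * D := by
        gcongr
        linarith
      linarith
    calc 9 / 4 * ‖e‖ * Γ ^ 2 * Λ = 9 / 4 * (‖e‖ * Λ) * Γ ^ 2 := by ring
      _ ≤ 9 / 4 * (4 * C₂) * (2 * N) := by gcongr
      _ = 18 * C₂ * N := by ring
  have one : ∀ D N : ℝ, P ≤ D → Γ ^ 2 * D ≤ 2 * N → 1 ≤ N := by
    intro D N h1 h2
    have h3 : 1 ≤ Γ ^ 2 := one_le_pow₀ hΓ
    have h4 : 4 ≤ D := by linarith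
    nlinarith
  have hPP : Λ * P ≥ P := by nlinarith
  rcases hsel with ⟨s1, s2⟩ | ⟨s1, s2⟩ | ⟨s1, s2⟩
  · -- d = -1
    refine ⟨ρ, γ, -1, hρc, hρle, Or.inl rfl, ?_⟩
    intro u hu1 hu2
    obtain ⟨p, s, e, hp, hs, hu0, heq, he⟩ := key u hu1 hu2
    obtain ⟨m1, m2, m3, m4, m5⟩ := hM u hu1 hu2
    obtain ⟨t1, t2, t3, t4⟩ := LOC_alg γ u a b xs p s e ε hε0 hε hu0 hγ0 hp hs hxs'
    have hz : γ * u ^ (-1 : ℤ) = γ / u := by rw [zpow_neg_one, div_eq_mul_inv]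
    rw [hz]
    have hD : Γ ^ 2 * P ≤ 2 * ‖γ / u‖ := by
      have : 0 ≤ ‖γ / u‖ := norm_nonneg _
      linarith
    refine ⟨?_, one P _ le_rfl hD⟩
    refine LOC_fin _ (γ / u) (a * γ ^ 2) (b * γ ^ 3 * u) _ _ _ _ ε Λ C₂ η hε0 hε hΛ0 heq t1 t2 t3
      (err e P _ s he le_rfl hD t4) ?_ ?_ hηε
    · exact dom P ‖a‖ _ _ s1 hD (by rw [m3]; nlinarith [norm_nonneg a, sq_nonneg Γ, mul_nonneg (sq_nonneg Γ) (norm_nonneg a)])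
    · exact dom P (‖b‖ / P) _ _ s2 hD (by
        have : 0 ≤ Γ ^ 2 * (‖b‖ / P) := by positivity
        linarith)
  · -- d = 0
    refine ⟨ρ, a * γ ^ 2, 0, hρc, hρle, Or.inr (Or.inl rfl), ?_⟩
    intro u hu1 hu2
    obtain ⟨p, s, e, hp, hs, hu0, heq, he⟩ := key u hu1 hu2
    obtain ⟨m1, m2, m3, m4, m5⟩ := hM u hu1 hu2
    obtain ⟨t1, t2, t3, t4⟩ := LOC_alg γ u a b xs p s e ε hε0 hε hu0 hγ0 hp hs hxs'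
    have hz : a * γ ^ 2 * u ^ (0 : ℤ) = a * γ ^ 2 := by rw [zpow_zero, mul_one]
    rw [hz]
    have ha0 : 0 ≤ Γ ^ 2 * ‖a‖ := by positivity
    have hD : Γ ^ 2 * ‖a‖ ≤ 2 * ‖a * γ ^ 2‖ := by rw [m3]; linarith
    have hPa : P ≤ ‖a‖ := by linarith
    refine ⟨?_, one ‖a‖ _ hPa hD⟩
    refine LOC_fin _ (a * γ ^ 2) (γ / u) (b * γ ^ 3 * u) _ _ _ _ ε Λ C₂ η hε0 hε hΛ0
      (by rw [heq]; ring : bh (g u) * deriv g u ^ 2 = a * (γ * s) ^ 2 +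
        xs / (γ * u * p) * (γ * s) ^ 2 + b * (γ * u * p) * (γ * s) ^ 2 + e * (γ * s) ^ 2) t2 t1 t3
      (err e ‖a‖ _ s he hPa hD t4) ?_ ?_ hηε
    · exact dom ‖a‖ P _ _ s1 hD m2
    · exact dom ‖a‖ (‖b‖ / P) _ _ s2 hD (by
        have : 0 ≤ Γ ^ 2 * (‖b‖ / P) := by positivity
        linarith)
  · -- d = 1
    refine ⟨ρ, b * γ ^ 3, 1, hρc, hρle, Or.inr (Or.inr rfl), ?_⟩
    intro u hu1 hu2
    obtain ⟨p, s, e, hp, hs, hu0, heq, he⟩ := key u hu1 hu2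
    obtain ⟨m1, m2, m3, m4, m5⟩ := hM u hu1 hu2
    obtain ⟨t1, t2, t3, t4⟩ := LOC_alg γ u a b xs p s e ε hε0 hε hu0 hγ0 hp hs hxs'
    have hz : b * γ ^ 3 * u ^ (1 : ℤ) = b * γ ^ 3 * u := by rw [zpow_one]
    rw [hz]
    have hPb : P ≤ ‖b‖ / P := by linarith
    refine ⟨?_, one (‖b‖ / P) _ hPb m4⟩
    refine LOC_fin _ (b * γ ^ 3 * u) (γ / u) (a * γ ^ 2) _ _ _ _ ε Λ C₂ η hε0 hε hΛ0
      (by rw [heq]; ring : bh (g u) * deriv g u ^ 2 = b * (γ * u * p) * (γ * s) ^ 2 +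
        xs / (γ * u * p) * (γ * s) ^ 2 + a * (γ * s) ^ 2 + e * (γ * s) ^ 2) t3 t1 t2
      (err e (‖b‖ / P) _ s he hPb m4 t4) ?_ ?_ hηε
    · exact dom (‖b‖ / P) P _ _ s1 m4 m2
    · exact dom (‖b‖ / P) ‖a‖ _ _ s2 m4 (by
        rw [m3]
        have : 0 ≤ Γ ^ 2 * ‖a‖ := by positivity
        linarith)

end GR
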